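import Pool.Agent.W_4481e3_q87.GoR
import Pool.Agent.W_4481e3_tab.T8

/-!
Tree s13o8, data 7.
-/

namespace Pool.Agent.W_4481e3_rt.s13o8

open Pool.Agent.W_4481e3_q25.EvR

theorem k142 : ckO Pool.Agent.W_4481e3_tab.T8.tab 1144800 2220640 16777216 4194304 5931008 8388608 5 1572864 524288 3670016 524288 516984444 524075327 1955818 1874442 268407562 268448250 16777216 16777216 8472495 8472495 0x103000c03000c203000c03000c03000c04000c2121 = true := by decide +kernel

theorem k147 : ckO Pool.Agent.W_4481e3_tab.T8.tab 1144800 2220640 16777216 4194304 5931008 8388608 16 1572864 524288 3670016 524288 511768002 529698652 3586130 7172260 268435456 268435456 16777216 16777216 8472495 8472495 0x102000c02000c02000c03000c03000c04000c2121203000c03000c103000c03000c104000c05029c205070c05070c21203000c04000c03000c04000c05000c121204000c04000c04000c06000c206000c1204000c04000c05000c06000c12106000c06000c206000c06000c07000c121212105029c05029c205000c05070c206000c106000c2105029c05029c2826c27a06f706000c06000c2829907a10e71206000c06000c06000c2106000c06000c07000c21206000c07000c207000c07000c07000c2107000c07000c07000c212107000c07000c207000c07000c07000c2107000c07000c08000c2121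2107000c07000c07000c2106000cb2b1207000cbb1282e6e7a619708000cb1b21b2121282ae47a6947121815b97b41a703000c04000c203000c04000c204000c05070c2104000c04000c04000c04000c21204000c04000c05000c05000c21205070c06000c2106000c06000c206000c06000c21212104000c04000c204000c04000c04000c04000c2104000c06000c12104000c04000c06000c104000c06000c121206000c06000c06000c06000c21206000cbb21bb2b12106000c06000c206000cb1b2108000cbb212bb212104000c04000c06000c105000c204000c06000c105000c25104000c04000c04000c21207000cbb2106000c06000c12bb2106000c06000c2b06000c212121205029c05029c05070c1205029c05070c105029c05029c205029c06000c212824b9799287105070c06000c206000c06000c2106000c06000c1bb2b12bb21206000cb2b1b21281b6c78e24705029c05029c206000c06000c06000c2106000cbb212105070cb2b1282b3079c72707000c07000c207000cb282f3e7a38c71b2bb1b21831d57a2827b21bb12838ff797d971bb2b1814e277ca47b2b1816f8777d97bb280ce876a1b7b12b1bb1bb2b127fd5a773297b128069976cfa7bb212180e00783cd72 = true := by decide +kernel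

theorem k149 : ckO Pool.Agent.W_4481e3_tab.T8.tab 1144800 2220640 16777216 4194304 5931008 8388608 5 1572864 524288 3670016 524288 515354132 515354132 7172260 7172260 268435456 268435456 16777216 16777216 8472495 8472495 0x102000c02000c02000c1202000c02000c03000c202000c03000c2121 = true := by decide +kernel

theorem k152 : ckO Pool.Agent.W_4481e3_tab.T8.tab 1144800 2220640 16777216 4194304 5931008 8388608 5 1572864 524288 3670016 524288 522526392 493837352 14344520 14344520 268435456 268435456 16777216 16777216 8472495 8472495 0x100000c00000c01000c201000c02000c21201001c01007c01003c121 = true := by decide +kernel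

theorem k154 : ckO Pool.Agent.W_4481e3_tab.T8.tab 1144800 2220640 16777216 4194304 5931008 8388608 9 1572864 524288 3670016 524288 493837352 508181872 14344520 28689040 268435456 268435456 16777216 16777216 8472495 8472495 0x100000c00000c00000c00000c00000c02000c12100000c00000c200000c00000c202000c02000c2102000c02000c202000c04000c104000c2121212 = true := by decide +kernel

end Pool.Agent.W_4481e3_rt.s13o8
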